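import Pool.Agent.H.MP_53fb6e_gt.Defs

namespace Pool.Agent.H.MP_53fb6e_gt

open Set Filter Topology

/-- `X` is the intersection of a decreasing sequence of compact contractible sets. -/
def CellLike {E : Type} [TopologicalSpace E] (X : Set E) : Prop :=
  ∃ A : ℕ → Set E, Antitone A ∧ (∀ n, IsCompact (A n) ∧ ContractibleSpace (A n)) ∧ ⋂ n, A n = X

theorem comp_onto {E E' : Type} [TopologicalSpace E] [T2Space E] [TopologicalSpace E'] [T1Space E']
    {F : E → E'} (hF : Continuous F) {Z : Set E} (hZ : IsCompact Z) {K : Set E'}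
    (hK : F '' Z ⊆ K)
    (h : ∀ U V : Set E, IsClosed U → IsClosed V → Disjoint U V → U ∪ V = Z → U.Nonempty →
      K ⊆ F '' U) {x : E} (hx : x ∈ Z) : F '' connectedComponentIn Z x = K := by
  refine Subset.antisymm ((image_mono (connectedComponentIn_subset _ _)).trans hK) fun y hy => ?_
  haveI : CompactSpace Z := isCompact_iff_compactSpace.1 hZ
  rw [connectedComponentIn_eq_image hx, connectedComponent_eq_iInter_isClopen]
  have hc : IsClosedEmbedding ((↑) : Z → E) := hZ.isClosed.isClosedEmbedding_subtypeVal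
  haveI : Nonempty {s : Set Z // IsClopen s ∧ (⟨x, hx⟩ : Z) ∈ s} :=
    ⟨⟨univ, isClopen_univ, mem_univ _⟩⟩
  obtain ⟨z, hz⟩ := IsCompact.nonempty_iInter_of_directed_nonempty_isCompact_isClosed
    (fun s : {s : Set Z // IsClopen s ∧ (⟨x, hx⟩ : Z) ∈ s} => s.1 ∩ {z : Z | F z = y})
    (fun s t => ⟨⟨s.1 ∩ t.1, s.2.1.inter t.2.1, s.2.2, t.2.2⟩,
      fun _ h => ⟨h.1.1, h.2⟩, fun _ h => ⟨h.1.2, h.2⟩⟩)
    (fun s => by
      obtain ⟨_, ⟨z, hz, rfl⟩, e⟩ := h _ _ (hc.isClosedMap _ s.2.1.isClosed)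
        (hc.isClosedMap _ s.2.1.compl.isClosed)
        ((disjoint_image_iff Subtype.val_injective).2 disjoint_compl_right)
        (by rw [← image_union, union_compl_self, Subtype.coe_image_univ]) ⟨x, _, s.2.2, rfl⟩ hy
      exact ⟨z, hz, e⟩)
    (fun s => (s.2.1.isClosed.inter
      (isClosed_singleton.preimage (hF.comp continuous_subtype_val))).isCompact)
    (fun s => s.2.1.isClosed.inter (isClosed_singleton.preimage (hF.comp continuous_subtype_val)))
  rw [mem_iInter] at hz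
  exact ⟨z, ⟨z, mem_iInter.2 fun s => (hz s).1, rfl⟩, (hz (Classical.arbitrary _)).2⟩

noncomputable def γ (t : ℝ) : ℂ := ⟨Real.sin t⁻¹, |Real.cos t⁻¹|⟩

theorem γ_norm (t : ℝ) : ‖γ t‖ = 1 := by
  rw [Complex.norm_eq_sqrt_sq_add_sq]
  simp [γ]

theorem γ_cont {t : ℝ} (ht : t ≠ 0) : ContinuousAt γ t := by
  have : γ = fun t => ((Real.sin t⁻¹ : ℝ) : ℂ) + ((|Real.cos t⁻¹| : ℝ) : ℂ) * Complex.I := by
    funext t
    apply Complex.ext <;> simp [γ, Complex.sin_ofReal_re, ← Complex.ofReal_inv]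
  rw [this]
  have := continuousAt_inv₀ ht
  fun_prop

def ray (s : ℝ) : Set (ℂ × ℝ) := (fun t => (γ t, t)) '' Ioc 0 s

def disc : Set (ℂ × ℝ) := Metric.closedBall 0 1 ×ˢ {0}

def X : Set (ℂ × ℝ) := disc ∪ ray 1

def F (p : ℂ × ℝ) : ℂ × ℝ := (p.1 ^ 2, p.2)

theorem F_cont : Continuous F := by unfold F; fun_prop

theorem mem_X {p : ℂ × ℝ} :
    p ∈ X ↔ (‖p.1‖ ≤ 1 ∧ p.2 = 0) ∨ (0 < p.2 ∧ p.2 ≤ 1 ∧ p.1 = γ p.2) := by
  refine or_congr (by simp [disc]) ⟨?_, fun h => ⟨p.2, ⟨h.1, h.2.1⟩, Prod.ext h.2.2.symm rfl⟩⟩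
  rintro ⟨t, ht, rfl⟩
  exact ⟨ht.1, ht.2, rfl⟩

theorem lim_ray {s : ℝ} (hs : 0 < s) {w : ℂ} (hw : ‖w‖ = 1) (hi : 0 ≤ w.im) :
    (w, (0 : ℝ)) ∈ closure (ray s) := by
  have h1 : w.re ^ 2 + w.im ^ 2 = 1 := by
    rw [Complex.norm_eq_sqrt_sq_add_sq, Real.sqrt_eq_one] at hw
    exact hw
  have h2 : Tendsto (fun n : ℕ => Real.arcsin w.re + n * (2 * Real.pi)) atTop atTop :=
    tendsto_atTop_add_const_left _ _
      (tendsto_natCast_atTop_atTop.atTop_mul_const (by positivity))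
  have h3 := tendsto_inv_atTop_zero.comp h2
  refine mem_closure_of_tendsto (f := fun n : ℕ => (w, (Real.arcsin w.re + n * (2 * Real.pi))⁻¹))
    (b := atTop) (tendsto_const_nhds.prodMk_nhds h3) ?_
  filter_upwards [h2.eventually_gt_atTop 0, h3.eventually_le_const hs] with n c1 c2
  refine ⟨_, ⟨inv_pos.2 c1, c2⟩, Prod.ext ?_ rfl⟩
  apply Complex.ext
  · simp only [γ, inv_inv, Real.sin_add_nat_mul_two_pi]
    exact Real.sin_arcsin (by nlinarith) (by nlinarith)
  · simp only [γ, inv_inv, Real.cos_add_nat_mul_two_pi, Real.cos_arcsin]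
    rw [show 1 - w.re ^ 2 = w.im ^ 2 by linarith, Real.sqrt_sq hi, abs_of_nonneg hi]

theorem ray_conn : IsPreconnected (ray 1) :=
  isPreconnected_Ioc.image _ fun t ht =>
    ((γ_cont ht.1.ne').prodMk continuousAt_id).continuousWithinAt

theorem cellLike : CellLike X := by
  have hε : ∀ n : ℕ, (0 : ℝ) < 1 / (n + 1) := fun n => by positivity
  have hε1 : ∀ n : ℕ, (1 : ℝ) / (n + 1) ≤ 1 := fun n => by
    rw [div_le_one (by positivity)]; linarith [n.cast_nonneg (α := ℝ)]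
  refine ⟨fun n => Metric.closedBall 0 1 ×ˢ Icc 0 (1 / (n + 1) : ℝ) ∪
    (fun t => (γ t, t)) '' Icc (1 / (n + 1) : ℝ) 1, ?_, fun n => ⟨?_, ?_⟩, ?_⟩
  · intro m n hmn p hp
    have h1 : (1 : ℝ) / (n + 1) ≤ 1 / (m + 1) := Nat.one_div_le_one_div hmn
    rcases hp with hp | ⟨t, ht, rfl⟩
    · exact Or.inl ⟨hp.1, hp.2.1, hp.2.2.trans h1⟩
    · by_cases c : t ≤ 1 / (m + 1)
      · exact Or.inl ⟨by simp [γ_norm], (hε n).le.trans ht.1, c⟩
      · exact Or.inr ⟨t, ⟨(not_le.1 c).le, ht.2⟩, rfl⟩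
  · exact ((isCompact_closedBall _ _).prod isCompact_Icc).union (isCompact_Icc.image_of_continuousOn
      fun t ht => ((γ_cont ((hε n).trans_le ht.1).ne').prodMk continuousAt_id).continuousWithinAt)
  · set ε : ℝ := 1 / (n + 1)
    have hc : Continuous fun t : ℝ => γ (max t ε) := continuous_iff_continuousAt.2 fun t =>
      ContinuousAt.comp (g := γ) (γ_cont ((hε n).trans_le (le_max_right _ _)).ne') (by fun_prop)
    let Φ : ℂ × ℝ ≃ₜ ℂ × ℝ :=
      { toFun := fun p => (p.1 - γ (max p.2 ε), p.2)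
        invFun := fun p => (p.1 + γ (max p.2 ε), p.2)
        left_inv := fun p => by simp
        right_inv := fun p => by simp
        continuous_toFun := (continuous_fst.sub (hc.comp continuous_snd)).prodMk continuous_snd
        continuous_invFun := (continuous_fst.add (hc.comp continuous_snd)).prodMk continuous_snd }
    have e : Φ '' (Metric.closedBall 0 1 ×ˢ Icc 0 ε ∪ (fun t => (γ t, t)) '' Icc ε 1) =
        Metric.closedBall (-γ ε) 1 ×ˢ Icc 0 ε ∪ {0} ×ˢ Icc ε 1 := by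
      ext p
      constructor
      · rintro ⟨q, hq | ⟨t, ht, rfl⟩, rfl⟩
        · refine Or.inl ⟨?_, hq.2⟩
          simpa [Φ, max_eq_right hq.2.2] using hq.1
        · exact Or.inr ⟨by simp [Φ, max_eq_left ht.1], ht⟩
      · rintro (hp | hp)
        · refine ⟨Φ.symm p, Or.inl ⟨?_, hp.2⟩, Φ.apply_symm_apply p⟩
          simpa [Φ, max_eq_right hp.2.2, dist_eq_norm] using hp.1
        · refine ⟨Φ.symm p, Or.inr ⟨p.2, hp.2, ?_⟩, Φ.apply_symm_apply p⟩
          have : p.1 = 0 := hp.1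
          simp [Φ, max_eq_left hp.2.1, this]
    have hs : StarConvex ℝ ((0 : ℂ), ε)
        (Metric.closedBall (-γ ε) 1 ×ˢ Icc 0 ε ∪ {0} ×ˢ Icc ε 1) :=
      (((convex_closedBall _ _).prod (convex_Icc _ _)).starConvex
        ⟨by simp [γ_norm], (hε n).le, le_rfl⟩).union
      (((convex_singleton _).prod (convex_Icc _ _)).starConvex ⟨rfl, le_rfl, hε1 n⟩)
    have := hs.contractibleSpace ⟨(0, ε), Or.inr ⟨rfl, le_rfl, hε1 n⟩⟩
    rw [← e] at this
    exact (Φ.image _).contractibleSpace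
  · ext p
    rw [mem_iInter, mem_X]
    constructor
    · intro h
      have h0 : 0 ≤ p.2 ∧ ‖p.1‖ ≤ 1 := by
        rcases h 0 with hp | ⟨t, ht, rfl⟩
        · exact ⟨hp.2.1, by simpa using hp.1⟩
        · exact ⟨(hε 0).le.trans ht.1, (γ_norm _).le⟩
      rcases h0.1.eq_or_lt with c | c
      · exact Or.inl ⟨h0.2, c.symm⟩
      · obtain ⟨n, hn⟩ := exists_nat_one_div_lt c
        rcases h n with hp | ⟨t, ht, rfl⟩
        · exact absurd hp.2.2 (not_le.2 hn)
        · exact Or.inr ⟨c, ht.2, rfl⟩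
    · rintro (h | h) n
      · exact Or.inl ⟨by simpa using h.1, h.2.ge, h.2.le.trans (hε n).le⟩
      · by_cases c : p.2 ≤ 1 / (n + 1)
        · exact Or.inl ⟨by simp [h.2.2, γ_norm], h.1.le, c⟩
        · exact Or.inr ⟨p.2, ⟨(not_le.1 c).le, h.2.1⟩, Prod.ext h.2.2.symm rfl⟩

theorem X_compact : IsCompact X := by
  obtain ⟨A, -, h2, h3⟩ := cellLike
  rw [← h3]
  exact (h2 0).1.of_isClosed_subset (isClosed_iInter fun n => (h2 n).1.isClosed) (iInter_subset _ 0)

theorem X_conn : IsConnected X := by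
  have h1 : (Complex.I, (0 : ℝ)) ∈ disc := ⟨by simp, rfl⟩
  have h2 := lim_ray one_pos Complex.norm_I (by simp)
  refine ⟨⟨_, Or.inl h1⟩, ?_⟩
  have h3 : IsPreconnected (insert (Complex.I, (0 : ℝ)) (ray 1)) :=
    ray_conn.subset_closure (subset_insert _ _) (insert_subset h2 subset_closure)
  have h4 : IsPreconnected disc :=
    ((convex_closedBall _ _).prod (convex_singleton _)).isPreconnected
  have := h4.union _ h1 (mem_insert _ _) h3
  rwa [union_insert, insert_eq_of_mem (mem_union_left _ h1)] at this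

end Pool.Agent.H.MP_53fb6e_gt
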