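import Pool.Agent.H.MP_53fb6e_gt.A

namespace Pool.Agent.H.MP_53fb6e_gt

open Set Filter Topology

def σ (p : ℂ × ℝ) : ℂ × ℝ := (-p.1, p.2)

theorem σ_cont : Continuous σ := by unfold σ; fun_prop

theorem F_σ (p : ℂ × ℝ) : F (σ p) = F p := by simp [F, σ]

theorem σ_mem {p : ℂ × ℝ} (hp : p ∈ X) (h : ¬ 0 < p.2) : σ p ∈ X := by
  rw [mem_X] at hp ⊢
  rcases hp with hp | hp
  · exact Or.inl (by simpa [σ] using hp)
  · exact absurd hp.1 h

theorem eq_of_pos {p q : ℂ × ℝ} (hp : p ∈ X) (hq : q ∈ X) (h : 0 < p.2) (e : q.2 = p.2) :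
    q = p := by
  rw [mem_X] at hp hq
  rcases hp with hp | hp
  · exact absurd hp.2 h.ne'
  rcases hq with hq | hq
  · exact absurd (e ▸ hq.2) h.ne'
  exact Prod.ext (by rw [hp.2.2, hq.2.2, e]) e

theorem circle_sub {K : Set (ℂ × ℝ)} (hK : K ⊆ F '' X) (hc : IsCompact K) (hK' : IsPreconnected K)
    {y y' : ℂ × ℝ} (hy : y ∈ K) (h0 : y.2 = 0) (hy' : y' ∈ K) (h1 : 0 < y'.2) {w : ℂ}
    (hw : ‖w‖ = 1) : F (w, 0) ∈ K := by
  have h2 : ray y'.2 ⊆ F ⁻¹' K := by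
    rintro _ ⟨t, ht, rfl⟩
    obtain ⟨z, hz, e⟩ := (hK'.image _ continuous_snd.continuousOn).Icc_subset ⟨y, hy, rfl⟩
      ⟨y', hy', rfl⟩ ⟨h0.le.trans ht.1.le, ht.2⟩
    obtain ⟨x, hx, rfl⟩ := hK hz
    rcases mem_X.1 hx with c | c
    · exact absurd (c.2.symm.trans e) ht.1.ne
    · have : x = (γ t, t) := Prod.ext (by rw [c.2.2, show x.2 = t from e]) e
      rwa [this] at hz
  have h3 := closure_minimal h2 (hc.isClosed.preimage F_cont)
  rcases le_total 0 w.im with c | c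
  · exact h3 (lim_ray h1 hw c)
  · rw [← F_σ]
    exact h3 (lim_ray h1 (by simpa using hw) (by simpa using c))

theorem confluent : ConfluentOn F X := by
  intro K hK hc hconn x hx
  have hZ : IsCompact (X ∩ F ⁻¹' K) := X_compact.inter_right (hc.isClosed.preimage F_cont)
  refine comp_onto F_cont hZ (image_subset_iff.2 inter_subset_right) ?_ hx
  intro U V hU hV hd e hne
  have hUZ : U ⊆ X ∩ F ⁻¹' K := e ▸ subset_union_left
  have hVZ : V ⊆ X ∩ F ⁻¹' K := e ▸ subset_union_right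
  have hσ : ∀ z ∈ X ∩ F ⁻¹' K, ¬ 0 < z.2 → σ z ∈ U ∪ V := fun z hz h =>
    e ▸ ⟨σ_mem hz.1 h, show F (σ z) ∈ K from F_σ z ▸ hz.2⟩
  set R := V ∩ ({p | 0 < p.2} ∪ σ ⁻¹' V) with hR
  have hRc : IsClosed R := by
    refine isClosed_of_closure_subset fun v hv => ?_
    have hvV : v ∈ V := closure_minimal inter_subset_left hV hv
    refine ⟨hvV, ?_⟩
    by_contra hn
    rw [mem_union, not_or] at hn
    have h1 : σ v ∈ U := (hσ v (hVZ hvV) hn.1).resolve_right hn.2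
    rw [hR, inter_union_distrib_left, closure_union] at hv
    have h2 : v ∈ closure (V ∩ {p | 0 < p.2}) := hv.resolve_right fun h =>
      hn.2 (closure_minimal inter_subset_right (hV.preimage σ_cont) h)
    obtain ⟨v', hv'⟩ : (V ∩ {p | 0 < p.2}).Nonempty := closure_nonempty_iff.1 ⟨v, h2⟩
    have h3 : ‖v.1‖ = 1 := by
      refine closure_minimal (t := {p : ℂ × ℝ | ‖p.1‖ = 1}) (fun p hp => ?_)
        (isClosed_eq (by fun_prop) continuous_const) h2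
      rcases mem_X.1 (hVZ hp.1).1 with c | c
      · exact absurd c.2 hp.2.ne'
      · show ‖p.1‖ = 1
        rw [c.2.2, γ_norm]
    have h4 : v.2 = 0 := ((mem_X.1 (hVZ hvV).1).resolve_right fun c => hn.1 c.1).2
    have h5 : IsPreconnected (Metric.sphere (0 : ℂ) 1 ×ˢ ({0} : Set ℝ)) :=
      (isPreconnected_sphere (by simp) _ _).prod isPreconnected_singleton
    have h6 : Metric.sphere (0 : ℂ) 1 ×ˢ ({0} : Set ℝ) ⊆ U ∪ V := by
      rintro ⟨w, t⟩ ⟨hw, rfl⟩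
      have hw : ‖w‖ = 1 := by simpa using hw
      rw [e]
      exact ⟨mem_X.2 (Or.inl ⟨hw.le, rfl⟩),
        circle_sub hK hc hconn.isPreconnected (hVZ hvV).2 h4 (hVZ hv'.1).2 hv'.2 hw⟩
    obtain ⟨z, -, hz⟩ := isPreconnected_closed_iff.1 h5 U V hU hV h6
      ⟨σ v, ⟨by simpa [σ] using h3, h4⟩, h1⟩ ⟨v, ⟨by simpa using h3, h4⟩, hvV⟩
    exact disjoint_left.1 hd hz.1 hz.2
  have hcov : K ⊆ F '' U ∪ F '' R := by
    intro y hy
    obtain ⟨z, hz, rfl⟩ := hK hy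
    have hz' : z ∈ U ∪ V := e ▸ ⟨hz, hy⟩
    rcases hz' with c | c
    · exact Or.inl ⟨z, c, rfl⟩
    by_cases c' : 0 < z.2
    · exact Or.inr ⟨z, ⟨c, Or.inl c'⟩, rfl⟩
    rcases hσ z ⟨hz, hy⟩ c' with c2 | c2
    · exact Or.inl ⟨_, c2, F_σ z⟩
    · exact Or.inr ⟨z, ⟨c, Or.inr c2⟩, rfl⟩
  intro y hy
  by_contra hn
  obtain ⟨u, hu⟩ := hne
  obtain ⟨_, -, ⟨u, hu, rfl⟩, r, hr, e'⟩ := isPreconnected_closed_iff.1 hconn.isPreconnected _ _
    ((hZ.of_isClosed_subset hU hUZ).image F_cont).isClosed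
    ((hZ.of_isClosed_subset hRc (inter_subset_left.trans hVZ)).image F_cont).isClosed hcov
    ⟨F u, (hUZ hu).2, u, hu, rfl⟩ ⟨y, hy, (hcov hy).resolve_left hn⟩
  have e2 : u.2 = r.2 := (congrArg Prod.snd e').symm
  rcases hr.2 with c | c
  · exact disjoint_left.1 hd hu (eq_of_pos (hVZ hr.1).1 (hUZ hu).1 c e2 ▸ hr.1)
  · rcases sq_eq_sq_iff_eq_or_eq_neg.1 (congrArg Prod.fst e' : r.1 ^ 2 = u.1 ^ 2) with c1 | c1
    · exact disjoint_left.1 hd hu ((Prod.ext c1 e2.symm : r = u) ▸ hr.1)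
    · exact disjoint_left.1 hd hu ((Prod.ext (by simp [σ, c1]) e2.symm : σ r = u) ▸ c)

noncomputable def q (p : ℂ × ℝ) : ℂ × ℝ := ((((2 + p.1.re) / 4 : ℝ) : ℂ), 0)

noncomputable def h (z : (ℂ × ℝ) × ℂ × ℝ) : ℝ :=
  z.1.1.re * (4 * ‖z.2.1‖ - 2) + z.1.1.im * √(1 - (4 * ‖z.2.1‖ - 2) ^ 2)

theorem cl_ray {p : ℂ × ℝ} (hp : p ∈ closure (ray 1)) :
    p ∈ X ∧ p.1.re ^ 2 + p.1.im ^ 2 = 1 ∧ 0 ≤ p.1.im := by
  refine closure_minimal (t := {p | p ∈ X ∧ p.1.re ^ 2 + p.1.im ^ 2 = 1 ∧ 0 ≤ p.1.im}) ?_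
    (X_compact.isClosed.inter ((isClosed_eq (f := fun p : ℂ × ℝ => p.1.re ^ 2 + p.1.im ^ 2)
      (by fun_prop) continuous_const).inter
      (isClosed_le continuous_const (Complex.continuous_im.comp continuous_fst)))) hp
  rintro _ ⟨t, ht, rfl⟩
  exact ⟨Or.inr ⟨t, ht, rfl⟩, by simp [γ], abs_nonneg _⟩

theorem q_mem {p : ℂ × ℝ} (hp : p ∈ closure (ray 1)) : q p ∈ X := by
  obtain ⟨-, h1, -⟩ := cl_ray hp
  refine mem_X.2 (Or.inl ⟨?_, rfl⟩)
  simp only [q, Complex.norm_real, Real.norm_eq_abs, abs_le]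
  constructor <;> nlinarith

theorem not_confluent : ¬ ConfluentOn (Prod.map F F) (X ×ˢ X) := by
  intro H
  have hG : Continuous fun p => (F p, F (q p)) :=
    F_cont.prodMk (F_cont.comp (by unfold q; fun_prop))
  set L := (fun p => (F p, F (q p))) '' closure (ray 1)
  have hI := lim_ray one_pos Complex.norm_I (by simp)
  have key : ∀ z ∈ X ×ˢ X ∩ Prod.map F F ⁻¹' L, (h z = 1 ∨ h z = -1) ∧ (0 < z.1.2 → h z = 1) := by
    rintro ⟨x, y⟩ ⟨⟨hx, -⟩, p, hp, e⟩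
    obtain ⟨h0, h1, h2⟩ := cl_ray hp
    have e1 : F p = F x := congrArg Prod.fst e
    have e2 : (q p).1 ^ 2 = y.1 ^ 2 := congrArg (fun z => z.2.1) e
    have e3 : 4 * ‖y.1‖ - 2 = p.1.re := by
      have : ‖(q p).1‖ = ‖y.1‖ := by
        rcases sq_eq_sq_iff_eq_or_eq_neg.1 e2 with c | c <;> simp [c]
      rw [← this]
      simp only [q, Complex.norm_real, Real.norm_eq_abs]
      rw [abs_of_nonneg (by nlinarith)]
      ring
    have e4 : h (x, y) = x.1.re * p.1.re + x.1.im * p.1.im := by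
      simp only [h, e3]
      rw [show 1 - p.1.re ^ 2 = p.1.im ^ 2 by linarith, Real.sqrt_sq h2]
    rw [e4]
    refine ⟨?_, fun c => ?_⟩
    · rcases sq_eq_sq_iff_eq_or_eq_neg.1 (congrArg Prod.fst e1.symm : x.1 ^ 2 = p.1 ^ 2) with c | c
      · left; rw [c]; linarith
      · right; rw [c]; simp only [Complex.neg_re, Complex.neg_im]; linarith
    · rw [← (eq_of_pos hx h0 c (show p.2 = x.2 from (congrArg Prod.snd e1 :)) : p = x)]
      linarith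
  have hx0 : (σ (Complex.I, 0), q (Complex.I, 0)) ∈ X ×ˢ X ∩ Prod.map F F ⁻¹' L :=
    ⟨⟨σ_mem (cl_ray hI).1 (lt_irrefl _), q_mem hI⟩, _, hI, Prod.ext (F_σ _).symm rfl⟩
  have hL := H L (by
      rintro _ ⟨p, hp, rfl⟩
      exact ⟨(p, q p), ⟨(cl_ray hp).1, q_mem hp⟩, rfl⟩)
    ((X_compact.of_isClosed_subset isClosed_closure fun p hp => (cl_ray hp).1).image hG)
    (IsConnected.image ⟨⟨_, hI⟩, ray_conn.closure⟩ _ hG.continuousOn) _ hx0
  have hm : (F (γ 1, 1), F (q (γ 1, 1))) ∈ L :=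
    ⟨_, subset_closure ⟨1, ⟨one_pos, le_rfl⟩, rfl⟩, rfl⟩
  obtain ⟨z, hz, e⟩ := hL.ge hm
  have hz1 : h z = 1 := (key z (connectedComponentIn_subset _ _ hz)).2 (by
    rw [show z.1.2 = 1 from congrArg (fun z => z.1.2) e]; exact one_pos)
  have hx1 : h (σ (Complex.I, 0), q (Complex.I, 0)) = -1 := by
    simp [h, σ, q]
    norm_num
  obtain ⟨w, hw, e0⟩ := isPreconnected_connectedComponentIn.intermediate_value
    (mem_connectedComponentIn hx0) hz (f := h) (by unfold h; fun_prop)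
    (show (0 : ℝ) ∈ Icc _ _ by rw [hz1, hx1]; norm_num)
  rcases (key w (connectedComponentIn_subset _ _ hw)).1 with c | c <;> linarith

end Pool.Agent.H.MP_53fb6e_gt
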