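import Pool.Agent.H.MP_53fb6e_gt.B

namespace Pool.Agent.H.MP_53fb6e_gt

open Set Filter Topology

variable {α β : Type}

theorem cob_nil (c : List α → ℤ) : cobdry c [] = 0 := by simp [cobdry]

theorem cob_cons (c : List α → ℤ) (x : α) (l : List α) :
    cobdry c (x :: l) = c l - cobdry (fun m => c (x :: m)) l := by
  simp only [cobdry, List.length_cons, Finset.sum_range_succ', List.eraseIdx_cons_succ,
    List.eraseIdx_cons_zero, pow_succ, pow_zero, mul_neg, mul_one, neg_mul, one_mul,
    Finset.sum_neg_distrib]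
  ring

theorem cob_map (c : List β → ℤ) (f : α → β) (l : List α) :
    cobdry c (l.map f) = cobdry (fun m => c (m.map f)) l := by
  simp only [cobdry, List.length_map, List.eraseIdx_map]

theorem cob_sub (c c' : List α → ℤ) (l : List α) :
    cobdry (fun m => c m - c' m) l = cobdry c l - cobdry c' l := by
  simp only [cobdry, mul_sub, Finset.sum_sub_distrib]

def prism (f g : α → β) : (List β → ℤ) → List α → ℤ
  | _, [] => 0
  | c, x :: l => c (f x :: g x :: l.map g) - prism f g (fun m => c (f x :: m)) l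

theorem prism_sub (f g : α → β) (l : List α) : ∀ c c' : List β → ℤ,
    prism f g (fun m => c m - c' m) l = prism f g c l - prism f g c' l := by
  induction l with
  | nil => intro c c'; rfl
  | cons x l ih => intro c c'; simp only [prism, ih]; ring

theorem prism_id (f g : α → β) (l : List α) : ∀ c : List β → ℤ,
    cobdry (prism f g c) l + prism f g (cobdry c) l = c (l.map g) - c (l.map f) := by
  induction l with
  | nil => intro c; simp [cob_nil, prism]
  | cons x l ih =>
    intro c
    have h := ih fun m => c (f x :: m)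
    simp only [cob_cons, prism, cob_sub, prism_sub, List.map_cons, cob_map] at h ⊢
    linarith

theorem prism_zero (f g : α → β) (S : Set β) (l : List α) : ∀ c : List β → ℤ,
    (∀ x ∈ l, f x ∈ S ∧ g x ∈ S) →
    (∀ m : List β, m.length = l.length + 1 → (∀ y ∈ m, y ∈ S) → c m = 0) → prism f g c l = 0 := by
  induction l with
  | nil => intro c _ _; rfl
  | cons x l ih =>
    intro c h1 h2
    have hx := h1 x List.mem_cons_self
    rw [prism, ih _ (fun y hy => h1 y (List.mem_cons_of_mem _ hy)) fun m hm hS =>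
      h2 _ (by simp [hm]) (by simpa [hx.1] using hS), h2 _ (by simp), sub_zero]
    simp only [List.mem_cons, List.mem_map]
    rintro y (rfl | rfl | ⟨z, hz, rfl⟩)
    exacts [hx.1, hx.2, (h1 z (List.mem_cons_of_mem _ hz)).2]

theorem contr_acyclic [MetricSpace α] [CompactSpace α] [ContractibleSpace α] (n : ℕ)
    (c : List α → ℤ) {ε : ℝ} (hε : 0 < ε)
    (hc : ∀ l, l.length = n + 2 → (∃ p, ∀ x ∈ l, dist x p < ε) → cobdry c l = 0) :
    ∃ η > 0, ∃ b : List α → ℤ, ∀ l, l.length = n + 1 → (∃ p, ∀ x ∈ l, dist x p < η) →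
      c l = cobdry b l := by
  obtain ⟨a, ⟨H⟩⟩ := id_nullhomotopic α
  obtain ⟨η, hη, hH⟩ := Metric.uniformContinuous_iff.1
    (CompactSpace.uniformContinuous_of_continuous H.continuous) ε hε
  obtain ⟨N, hN⟩ := exists_nat_one_div_lt hη
  let f : ℕ → α → α := fun j x => H (projIcc 0 1 zero_le_one (1 - j * (1 / (N + 1) : ℝ)), x)
  have key : ∀ j, ∃ b : List α → ℤ, ∀ l, l.length = n + 1 → (∃ p, ∀ x ∈ l, dist x p < η) →
      c (l.map (f j)) = cobdry b l := by
    intro j
    induction j with
    | zero =>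
      refine ⟨fun m => c (a :: m.map (f 0)), fun l hl _ => ?_⟩
      have e : ∀ x, f 0 x = a := fun x => by simp [f]
      have := hc (a :: l.map (f 0)) (by simp [hl]) ⟨a, by simp [e, hε]⟩
      rw [cob_cons, cob_map] at this
      linarith
    | succ j ih =>
      obtain ⟨b, hb⟩ := ih
      refine ⟨fun m => b m - prism (f (j + 1)) (f j) c m, fun l hl hp => ?_⟩
      have h1 := prism_id (f (j + 1)) (f j) l c
      obtain ⟨p, hp'⟩ := hp
      rw [prism_zero _ _ (Metric.ball (f j p) ε) l (cobdry c) (fun x hx => ⟨hH ?_, hH ?_⟩)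
        fun m hm hS => hc m (by omega) ⟨_, hS⟩, hb l hl ⟨p, hp'⟩] at h1
      · rw [cob_sub]
        linarith
      · rw [Prod.dist_eq, max_lt_iff]
        refine ⟨(abs_projIcc_sub_projIcc zero_le_one).trans_lt ?_, hp' x hx⟩
        push_cast
        rw [show 1 - ((j : ℝ) + 1) * (1 / (N + 1)) - (1 - j * (1 / (N + 1))) = -(1 / (N + 1)) by ring,
          abs_neg, abs_of_pos (by positivity)]
        exact hN
      · rw [Prod.dist_eq, max_lt_iff]
        exact ⟨by simpa using hη, hp' x hx⟩
  obtain ⟨b, hb⟩ := key (N + 1)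
  refine ⟨η, hη, b, fun l hl hp => ?_⟩
  have e : f (N + 1) = id := by
    funext x
    simp only [f]
    rw [show 1 - ((N + 1 : ℕ) : ℝ) * (1 / (N + 1)) = 0 by push_cast; field_simp; ring]
    simp
  rw [← hb l hl hp, e, List.map_id]

theorem CellLike.acyclic {E : Type} [MetricSpace E] {X : Set E} (h : CellLike X) :
    CechAcyclic X := by
  obtain ⟨A, h1, h2, h3⟩ := h
  intro ι U hU hcov n c hc
  have hX : IsCompact X := h3 ▸
    (h2 0).1.of_isClosed_subset (isClosed_iInter fun n => (h2 n).1.isClosed) (iInter_subset _ 0)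
  obtain ⟨ε, hε, hL⟩ := lebesgue_number_lemma_of_metric hX hU hcov
  obtain ⟨k, hk⟩ := exists_subset_nhds_of_isCompact' (V := A) (directed_of_isDirected_le h1)
    (fun i => (h2 i).1) (fun i => (h2 i).1.isClosed) (U := Metric.thickening (ε / 4) X)
    (fun x hx => Metric.isOpen_thickening.mem_nhds
      (Metric.self_subset_thickening (by positivity) X (h3.le hx)))
  haveI : CompactSpace (A k) := isCompact_iff_compactSpace.1 (h2 k).1
  haveI := (h2 k).2
  choose r hr hr' using fun x : A k => Metric.mem_thickening_iff.1 (hk x.2)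
  choose j hj using fun x : A k => hL (r x) (hr x)
  obtain ⟨η, hη, b, hb⟩ := contr_acyclic n (fun l : List (A k) => c (l.map j)) (ε := ε / 4)
    (by positivity) (by
      rintro l hl ⟨p, hp⟩
      rw [← cob_map]
      refine hc _ (by simpa using hl) ⟨r p, hr p, ?_⟩
      simp only [List.mem_map]
      rintro _ ⟨x, hx, rfl⟩
      refine hj x ?_
      have a1 := dist_triangle4 (r p) p x (r x)
      have a2 := hr' p
      have a3 := hr' x
      have a4 : dist (x : E) p < ε / 4 := hp x hx
      rw [dist_comm] at a4 a2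
      rw [Metric.mem_ball]
      linarith)
  have hs : X ⊆ A k := h3 ▸ iInter_subset _ k
  refine ⟨X, fun x => Metric.ball x (min η (ε / 4)), fun x => j (inclusion hs x),
    fun _ => Metric.isOpen_ball,
    fun x hx => mem_iUnion.2 ⟨⟨x, hx⟩, Metric.mem_ball_self (by positivity)⟩, fun x y hy => hj _ ?_,
    fun l => b (l.map (inclusion hs)), fun l hl ⟨p, hp, hp'⟩ => ?_⟩
  · have a1 := dist_triangle y x (r (inclusion hs x))
    have a2 : dist (x : E) (r (inclusion hs x)) < ε / 4 := hr' (inclusion hs x)
    have a3 : dist y x < ε / 4 := (Metric.mem_ball.1 hy.1).trans_le (min_le_right _ _)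
    rw [Metric.mem_ball]
    linarith
  · rw [← cob_map, ← hb _ (by simpa using hl) ⟨⟨p, hs hp⟩, ?_⟩, List.map_map]
    · rfl
    simp only [List.mem_map]
    rintro _ ⟨x, hx, rfl⟩
    exact (Metric.mem_ball'.1 (hp' x hx)).trans_le (min_le_left _ _)

end Pool.Agent.H.MP_53fb6e_gt
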