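import Mathlib

namespace Pool.Agent.H.MP_53fb6e_gt

/-- The restriction of `F` to `X`, seen as a map of `X` onto `F '' X`, is confluent: for every
subcontinuum `K` of `F '' X`, every component of `X ∩ F ⁻¹' K` is mapped onto `K`. -/
def ConfluentOn {E E' : Type} [TopologicalSpace E] [TopologicalSpace E'] (F : E → E')
    (X : Set E) : Prop :=
  ∀ K ⊆ F '' X, IsCompact K → IsConnected K →
    ∀ x ∈ X ∩ F ⁻¹' K, F '' connectedComponentIn (X ∩ F ⁻¹' K) x = K

/-- Coboundary of an (augmented, ordered) integer cochain: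
`(δ c)(i₀, …, iₙ) = ∑ₖ (-1)^k c(i₀, …, omit iₖ, …, iₙ)`. -/
def cobdry {ι : Type} (c : List ι → ℤ) (l : List ι) : ℤ :=
  ∑ k ∈ Finset.range l.length, (-1) ^ k * c (l.eraseIdx k)

/-- `l` is an ordered simplex of the nerve of the cover of `X` by the sets `U i ∩ X`. -/
def IsSimplex {E ι : Type} (X : Set E) (U : ι → Set E) (l : List ι) : Prop :=
  ∃ x ∈ X, ∀ i ∈ l, x ∈ U i

/-- All reduced Čech cohomology groups of `X` with integer coefficients vanish: every `n`-cocycle
on the nerve of an open cover of `X` becomes a coboundary (in the augmented complex) on the nerve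
of some open refinement. -/
def CechAcyclic {E : Type} [TopologicalSpace E] (X : Set E) : Prop :=
  ∀ (ι : Type) (U : ι → Set E), (∀ i, IsOpen (U i)) → X ⊆ ⋃ i, U i →
    ∀ (n : ℕ) (c : List ι → ℤ), (∀ l, l.length = n + 2 → IsSimplex X U l → cobdry c l = 0) →
      ∃ (κ : Type) (V : κ → Set E) (ρ : κ → ι), (∀ k, IsOpen (V k)) ∧ X ⊆ ⋃ k, V k ∧
        (∀ k, V k ∩ X ⊆ U (ρ k)) ∧
        ∃ b : List κ → ℤ, ∀ l, l.length = n + 1 → IsSimplex X V l → c (l.map ρ) = cobdry b l

end Pool.Agent.H.MP_53fb6e_gt
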